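import Pool.Agent.helper51.NS.J3
import Pool.Agent.helper95.NS.C
import Pool.Agent.helper73.NS.AB

open Finset

namespace Pool.Agent.helper55.NS

open Pool.Agent.helper43.NO Pool.Agent.helper43.NS
open Pool.Agent.helper51.NS Pool.Agent.helper95.NS Pool.Agent.helper73.NS

/-- one term of the expansion of `∏_j (∑_i Y(n - (jL+i+1)))^2`, `Y = Gf P c`, `Mn P c = 0`. -/
theorem term (P : Finset ℕ) (K x z P0 D r L : ℕ) (c : Finset ℕ → ℝ)
    (hP : ∀ p ∈ P, p.Prime ∧ K < p ∧ P0 ≤ p ∧ p ≤ z) (hP0 : 1 ≤ P0) (hz : 1 ≤ z)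
    (hrL : r * L ≤ K) (hKx : K ≤ x)
    (hc : ∀ T ∈ P.powerset, |c T| ≤ 2 * 2 ^ T.card)
    (hD : ∀ T ∈ P.powerset, D < T.card → c T = 0) (hM : Mn P c = 0)
    (τ : Fin r → Fin L × Fin L) :
    |∑ n ∈ Ioc K x, ∏ j : Fin r, (Gf P c (n - (j.1 * L + (τ j).1.1 + 1)) *
        Gf P c (n - (j.1 * L + (τ j).2.1 + 1)))
      - ((x : ℝ) - K) * (if ∀ j, (τ j).1 = (τ j).2 then (Mn P (conv c c)) ^ r else 0)| ≤
      ((z : ℝ) ^ (2 * D * (2 * r)) + x * (2 * r : ℝ) ^ 2 * 9 ^ 2 * (∑ p ∈ P, 1 / (p : ℝ)) / P0) *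
        (4 * pr P 9) ^ (2 * r) := by
  classical
  -- the shifts of block `j`
  obtain ⟨Sj, hSj⟩ : ∃ Sj : Fin r → Finset ℕ, ∀ j, Sj j =
      {j.1 * L + (τ j).1.1 + 1, j.1 * L + (τ j).2.1 + 1} := ⟨_, fun _ => rfl⟩
  have hmem : ∀ j k, k ∈ Sj j → ∃ i : Fin L, k = j.1 * L + i.1 + 1 := by
    intro j k hk
    rw [hSj, Finset.mem_insert, Finset.mem_singleton] at hk
    rcases hk with h | h
    · exact ⟨_, h⟩
    · exact ⟨_, h⟩
  have hblock : ∀ (j : Fin r) (i : Fin L), (j.1 * L + i.1 + 1 - 1) / L = j.1 := by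
    intro j i
    have hL : 0 < L := lt_of_le_of_lt (Nat.zero_le _) i.2
    have e : j.1 * L + i.1 + 1 - 1 = i.1 + L * j.1 := by
      rw [Nat.add_sub_cancel]; ring
    rw [e, Nat.add_mul_div_left _ _ hL, Nat.div_eq_of_lt i.2, Nat.zero_add]
  have hdisj : ∀ j j' : Fin r, j ≠ j' → Disjoint (Sj j) (Sj j') := by
    intro j j' hne
    rw [Finset.disjoint_left]
    intro k hk hk'
    obtain ⟨i, hi⟩ := hmem j k hk
    obtain ⟨i', hi'⟩ := hmem j' k hk'
    apply hne
    apply Fin.ext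
    rw [← hblock j i, ← hblock j' i', ← hi, ← hi']
  -- the coefficients
  obtain ⟨ck, hck⟩ : ∃ ck : ℕ → Finset ℕ → ℝ, ∀ k, ck k =
      if (∃ j : Fin r, j.1 = (k - 1) / L ∧ (τ j).1 = (τ j).2) then conv c c else c :=
    ⟨_, fun _ => rfl⟩
  have hck' : ∀ j k, k ∈ Sj j → ck k = if (τ j).1 = (τ j).2 then conv c c else c := by
    intro j k hk
    obtain ⟨i, hi⟩ := hmem j k hk
    have hb : (k - 1) / L = j.1 := by rw [hi]; exact hblock j i
    rw [hck, hb]
    by_cases h : (τ j).1 = (τ j).2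
    · rw [if_pos ⟨j, rfl, h⟩, if_pos h]
    · rw [if_neg h, if_neg]
      rintro ⟨j', hj', h'⟩
      have : j' = j := Fin.ext hj'
      rw [this] at h'
      exact h h'
  have hprod : ∀ f : (Finset ℕ → ℝ) → ℕ → ℝ, ∀ j, ∏ k ∈ Sj j, f (ck k) k =
      if (τ j).1 = (τ j).2 then f (conv c c) (j.1 * L + (τ j).1.1 + 1)
      else f c (j.1 * L + (τ j).1.1 + 1) * f c (j.1 * L + (τ j).2.1 + 1) := by
    intro f j
    have h1 : ∏ k ∈ Sj j, f (ck k) k =
        ∏ k ∈ Sj j, f (if (τ j).1 = (τ j).2 then conv c c else c) k :=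
      Finset.prod_congr rfl fun k hk => by rw [hck' j k hk]
    rw [h1, hSj]
    by_cases h : (τ j).1 = (τ j).2
    · rw [if_pos h, if_pos h, ← h, Finset.pair_eq_singleton, Finset.prod_singleton]
    · rw [if_neg h, if_neg h, Finset.prod_pair]
      intro e
      apply h
      apply Fin.ext
      omega
  have hbi : ∀ f : (Finset ℕ → ℝ) → ℕ → ℝ, ∏ k ∈ (univ : Finset (Fin r)).biUnion Sj, f (ck k) k =
      ∏ j, (if (τ j).1 = (τ j).2 then f (conv c c) (j.1 * L + (τ j).1.1 + 1)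
      else f c (j.1 * L + (τ j).1.1 + 1) * f c (j.1 * L + (τ j).2.1 + 1)) := by
    intro f
    rw [Finset.prod_biUnion (fun j _ j' _ hne => hdisj j j' hne)]
    exact Finset.prod_congr rfl fun j _ => hprod f j
  have hPp : ∀ p ∈ P, p.Prime := fun p hp => (hP p hp).1
  have hmain := joint P K x z P0 (2 * D) (2 * r) 9 4 ((univ : Finset (Fin r)).biUnion Sj) ck
    hP hP0 hz ?_ ?_ hKx (by norm_num) (by norm_num) ?_ ?_
  · have e1 : ∀ n, ∏ k ∈ (univ : Finset (Fin r)).biUnion Sj, Gf P (ck k) (n - k) =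
        ∏ j : Fin r, (Gf P c (n - (j.1 * L + (τ j).1.1 + 1)) *
        Gf P c (n - (j.1 * L + (τ j).2.1 + 1))) := by
      intro n
      rw [hbi (fun d k => Gf P d (n - k))]
      refine Finset.prod_congr rfl fun j _ => ?_
      by_cases h : (τ j).1 = (τ j).2
      · rw [if_pos h, ← h, Gf_mul P hPp c c]
      · rw [if_neg h]
    have e2 : ∏ k ∈ (univ : Finset (Fin r)).biUnion Sj, Mn P (ck k) =
        (if ∀ j, (τ j).1 = (τ j).2 then (Mn P (conv c c)) ^ r else 0) := by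
      rw [hbi (fun d _ => Mn P d)]
      have : ∀ j : Fin r, (if (τ j).1 = (τ j).2 then Mn P (conv c c) else Mn P c * Mn P c) =
          (if (τ j).1 = (τ j).2 then Mn P (conv c c) else 0) := by
        intro j
        rw [hM, zero_mul]
      rw [Finset.prod_congr rfl fun j _ => this j, Finset.prod_ite_zero]
      simp
    rw [e2] at hmain
    simp only [e1] at hmain
    refine hmain.trans (le_of_eq ?_)
    push_cast
    ring
  · intro k hk
    rw [Finset.mem_biUnion] at hk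
    obtain ⟨j, _, hj⟩ := hk
    obtain ⟨i, hi⟩ := hmem j k hj
    rw [Finset.mem_Icc, hi]
    refine ⟨by omega, ?_⟩
    have h1 : j.1 * L + L ≤ r * L := by
      have : (j.1 + 1) * L ≤ r * L := Nat.mul_le_mul_right L j.2
      rw [Nat.add_mul, Nat.one_mul] at this
      exact this
    have h2 := i.2
    omega
  · refine Finset.card_biUnion_le.trans ?_
    have : ∀ j ∈ (univ : Finset (Fin r)), (Sj j).card ≤ 2 := by
      intro j _
      rw [hSj]
      exact Finset.card_le_two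
    refine (Finset.sum_le_sum this).trans ?_
    simp [mul_comm]
  · intro k _ T hT
    rw [hck]
    split_ifs with h
    · exact conv_abs P c c hc hc T hT
    · refine (hc T hT).trans ?_
      have h2 : (2 : ℝ) ^ T.card ≤ 9 ^ T.card := pow_le_pow_left₀ (by norm_num) (by norm_num) _
      have h3 : (0 : ℝ) ≤ 9 ^ T.card := by positivity
      linarith
  · intro k _ T hT hTc
    rw [hck]
    split_ifs with h
    · exact conv_zero P D c c hD hD T hT hTc
    · exact hD T hT (by omega)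

end Pool.Agent.helper55.NS
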