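import Pool.Agent.helper43.NS.Defs

/-!
Two counting lemmas (Chinese remainder theorem) for several shifts.
-/

open Finset

namespace Pool.Agent.helper55.NS

/-- several shifts, pairwise disjoint sets of primes: Chinese remainder theorem; the number of
`n ∈ (K,x]` in one residue class modulo `q = ∏_i ∏ (τ i)` differs from `(x-K)/q` by at most 1.
(`n - k i` is a true subtraction, `k i ≤ K < n`.) -/
lemma count_disj {ι : Type} [Fintype ι] [DecidableEq ι] (P : Finset ℕ) (K x : ℕ) (k : ι → ℕ)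
    (τ : ι → Finset ℕ) (hP : ∀ p ∈ P, p.Prime ∧ K < p) (hk : ∀ i, k i ∈ Icc 1 K) (hKx : K ≤ x)
    (hτ : ∀ i, τ i ⊆ P) (hd : ∀ i j, i ≠ j → Disjoint (τ i) (τ j)) :
    |(((Ioc K x).filter (fun n => ∀ i, (∏ p ∈ τ i, p) ∣ (n - k i))).card : ℝ)
      - ((x : ℝ) - K) * ∏ i, (1 / ((∏ p ∈ τ i, p : ℕ) : ℝ))| ≤ 1 := by
  have hcop : ∀ i j, i ≠ j → Nat.Coprime (∏ p ∈ τ i, p) (∏ p ∈ τ j, p) := by
    intro i j hij
    refine Nat.Coprime.prod_left fun p hp => Nat.Coprime.prod_right fun r hr => ?_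
    rw [Nat.coprime_primes (hP p (hτ i hp)).1 (hP r (hτ j hr)).1]
    intro h
    subst h
    exact (Finset.disjoint_left.1 (hd i j hij)) hp hr
  have hpos : ∀ i, 0 < ∏ p ∈ τ i, p := by
    intro i
    exact Finset.prod_pos fun p hp => (hP p (hτ i hp)).1.pos
  set q : ℕ := ∏ i, ∏ p ∈ τ i, p with hq
  have hqpos : 0 < q := Finset.prod_pos fun i _ => hpos i
  obtain ⟨c, hc⟩ := Nat.chineseRemainderOfFinset k (fun i => ∏ p ∈ τ i, p) Finset.univ
    (fun i _ => (hpos i).ne') (fun i _ j _ hij => hcop i j hij)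
  have hset : (Ioc K x).filter (fun n => ∀ i, (∏ p ∈ τ i, p) ∣ (n - k i))
      = (Ioc K x).filter (fun n => n ≡ c [MOD q]) := by
    apply Finset.filter_congr
    intro n hn
    have hKn : K < n := (Finset.mem_Ioc.1 hn).1
    constructor
    · intro h
      rw [Nat.modEq_iff_dvd, hq, Nat.cast_prod]
      refine Finset.prod_dvd_of_coprime ?_ ?_
      · intro i _ j _ hij
        exact (Nat.isCoprime_iff_coprime.2 (hcop i j hij))
      · intro i _
        rw [← Nat.modEq_iff_dvd]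
        have h1 : k i ≡ n [MOD ∏ p ∈ τ i, p] :=
          (Nat.modEq_iff_dvd' (by have := (Finset.mem_Icc.1 (hk i)).2; omega)).2 (h i)
        exact h1.symm.trans (hc i (Finset.mem_univ i)).symm
    · intro h i
      have h1 : n ≡ c [MOD ∏ p ∈ τ i, p] :=
        h.of_dvd (Finset.dvd_prod_of_mem (fun i => ∏ p ∈ τ i, p) (Finset.mem_univ i))
      have h2 : k i ≡ n [MOD ∏ p ∈ τ i, p] :=
        (h1.trans (hc i (Finset.mem_univ i))).symm
      exact (Nat.modEq_iff_dvd' (by have := (Finset.mem_Icc.1 (hk i)).2; omega)).1 h2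
  have hprod : ∏ i, (1 / ((∏ p ∈ τ i, p : ℕ) : ℝ)) = 1 / (q : ℝ) := by
    rw [Finset.prod_div_distrib, Finset.prod_const_one, hq, Nat.cast_prod]
  rw [hset, hprod]
  have hcard := Nat.Ioc_filter_modEq_card K x hqpos c
  have hqR : (0 : ℚ) < (q : ℚ) := by exact_mod_cast hqpos
  have hle : ⌊((K : ℚ) - c) / q⌋ ≤ ⌊((x : ℚ) - c) / q⌋ := by
    apply Int.floor_le_floor
    apply div_le_div_of_nonneg_right _ hqR.le
    have : (K : ℚ) ≤ x := by exact_mod_cast hKx
    linarith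
  rw [max_eq_left (by linarith)] at hcard
  have hcQ : ((((Ioc K x).filter (fun n => n ≡ c [MOD q])).card : ℤ) : ℚ)
      = (⌊((x : ℚ) - c) / q⌋ : ℚ) - (⌊((K : ℚ) - c) / q⌋ : ℚ) := by
    rw [hcard]; push_cast; ring
  have f1 := Int.floor_le (((x : ℚ) - c) / q)
  have f2 := Int.lt_floor_add_one (((x : ℚ) - c) / q)
  have f3 := Int.floor_le (((K : ℚ) - c) / q)
  have f4 := Int.lt_floor_add_one (((K : ℚ) - c) / q)
  have hsub : ((x : ℚ) - c) / q - ((K : ℚ) - c) / q = ((x : ℚ) - K) * (1 / q) := by ring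
  have hQ : |((((Ioc K x).filter (fun n => n ≡ c [MOD q])).card : ℚ))
      - ((x : ℚ) - K) * (1 / q)| ≤ 1 := by
    have e : ((((Ioc K x).filter (fun n => n ≡ c [MOD q])).card : ℚ))
        = (⌊((x : ℚ) - c) / q⌋ : ℚ) - (⌊((K : ℚ) - c) / q⌋ : ℚ) := by
      rw [← hcQ]; push_cast; rfl
    rw [e, abs_le]
    constructor <;> linarith
  have hR := (Rat.cast_le (K := ℝ)).2 hQ
  push_cast at hR
  exact hR

/-- conflict: a prime `p > K` cannot divide `n - k i` and `n - k j` for `k i ≠ k j` in `[1,K]` -/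
lemma count_conf {ι : Type} [Fintype ι] [DecidableEq ι] (P : Finset ℕ) (K x : ℕ) (k : ι → ℕ)
    (τ : ι → Finset ℕ) (hP : ∀ p ∈ P, p.Prime ∧ K < p) (hk : ∀ i, k i ∈ Icc 1 K)
    (hinj : Function.Injective k) (hτ : ∀ i, τ i ⊆ P)
    (hc : ∃ i j, i ≠ j ∧ ¬ Disjoint (τ i) (τ j)) :
    ((Ioc K x).filter (fun n => ∀ i, (∏ p ∈ τ i, p) ∣ (n - k i))) = ∅ := by
  obtain ⟨i, j, hij, hdis⟩ := hc
  obtain ⟨p, hpi, hpj⟩ := Finset.not_disjoint_iff.1 hdis
  rw [Finset.filter_eq_empty_iff]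
  intro n hn h
  have hKn : K < n := (Finset.mem_Ioc.1 hn).1
  have hi := Finset.mem_Icc.1 (hk i)
  have hj := Finset.mem_Icc.1 (hk j)
  have hpK : K < p := (hP p (hτ i hpi)).2
  have h1 : p ∣ n - k i := (Finset.dvd_prod_of_mem (fun p => p) hpi).trans (h i)
  have h2 : p ∣ n - k j := (Finset.dvd_prod_of_mem (fun p => p) hpj).trans (h j)
  have hne : k i ≠ k j := fun e => hij (hinj e)
  rcases Nat.lt_or_gt_of_ne hne with hlt | hlt
  · have h3 : p ∣ (n - k i) - (n - k j) := Nat.dvd_sub h1 h2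
    have h4 : (n - k i) - (n - k j) = k j - k i := by omega
    rw [h4] at h3
    have := Nat.le_of_dvd (by omega) h3
    omega
  · have h3 : p ∣ (n - k j) - (n - k i) := Nat.dvd_sub h2 h1
    have h4 : (n - k j) - (n - k i) = k i - k j := by omega
    rw [h4] at h3
    have := Nat.le_of_dvd (by omega) h3
    omega

end Pool.Agent.helper55.NS
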